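import Mathlib

/-!
# Words in the letters `2`, `3`: pairs of neighbouring letters, and Sperner's theorem
-/

set_option autoImplicit false

namespace Pool.Agent.L5helper5.SP

/-- the sums of the pairs of consecutive letters, and the last letter if the length is odd -/
def sk : List ℕ → List ℕ
  | a :: b :: l => (a + b) :: sk l
  | [a] => [a]
  | [] => []

/-- the word with given pair sums; the pairs with sum `5` are `2, 3` or `3, 2` according to `χ` -/
def wd : List ℕ → (ℕ → Bool) → List ℕ
  | [], _ => []
  | a :: s, χ =>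
    if a = 4 then 2 :: 2 :: wd s χ
    else if a = 6 then 3 :: 3 :: wd s χ
    else if a = 5 then
      if χ 0 then 2 :: 3 :: wd s (fun i => χ (i + 1)) else 3 :: 2 :: wd s (fun i => χ (i + 1))
    else a :: wd s χ

/-- all letters are `2` or `3` -/
def L23 (w : List ℕ) : Prop := ∀ x ∈ w, x = 2 ∨ x = 3

/-- possible lists of pair sums: `4, 5, 6` and perhaps a last letter `2` or `3` -/
inductive Sk : List ℕ → Prop
  | nil : Sk []
  | two : Sk [2]
  | three : Sk [3]
  | cons (a : ℕ) (s : List ℕ) (ha : a = 4 ∨ a = 5 ∨ a = 6) (hs : Sk s) : Sk (a :: s)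

lemma sk_Sk : ∀ w : List ℕ, L23 w → Sk (sk w)
  | [], _ => Sk.nil
  | [a], h => by
    rcases h a (by simp) with rfl | rfl
    · exact Sk.two
    · exact Sk.three
  | a :: b :: l, h => by
    rw [sk]
    refine Sk.cons _ _ ?_ (sk_Sk l fun x hx => h x (by simp [hx]))
    have h1 := h a (by simp)
    have h2 := h b (by simp)
    omega

lemma sk_sum : ∀ w : List ℕ, (sk w).sum = w.sum
  | [] => rfl
  | [a] => rfl
  | a :: b :: l => by
    rw [sk, List.sum_cons, List.sum_cons, List.sum_cons, sk_sum l]
    ring

/-- every word comes from its pair sums -/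
lemma exists_wd : ∀ w : List ℕ, L23 w → ∃ χ : ℕ → Bool, wd (sk w) χ = w
  | [], _ => ⟨fun _ => true, rfl⟩
  | [a], h => by
    refine ⟨fun _ => true, ?_⟩
    rcases h a (by simp) with rfl | rfl
    · simp [sk, wd]
    · simp [sk, wd]
  | a :: b :: l, h => by
    obtain ⟨χ, hχ⟩ := exists_wd l fun x hx => h x (by simp [hx])
    have h1 := h a (by simp)
    have h2 := h b (by simp)
    rcases h1 with rfl | rfl <;> rcases h2 with rfl | rfl
    · exact ⟨χ, by simp [sk, wd, hχ]⟩
    · exact ⟨fun i => if i = 0 then true else χ (i - 1), by simp [sk, wd, hχ]⟩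
    · exact ⟨fun i => if i = 0 then false else χ (i - 1), by simp [sk, wd, hχ]⟩
    · exact ⟨χ, by simp [sk, wd, hχ]⟩

lemma wd_L23 {s : List ℕ} (hs : Sk s) : ∀ χ, L23 (wd s χ) := by
  induction hs with
  | nil => intro χ x hx; simp [wd] at hx
  | two => intro χ x hx; simp [wd] at hx; exact Or.inl hx
  | three => intro χ x hx; simp [wd] at hx; exact Or.inr hx
  | cons a s ha hs ih =>
    intro χ x hx
    rcases ha with rfl | rfl | rfl
    · simp only [wd, if_true, List.mem_cons] at hx
      rcases hx with h | h | h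
      · exact Or.inl h
      · exact Or.inl h
      · exact ih _ x h
    · simp only [wd] at hx
      norm_num at hx
      split_ifs at hx
      · simp only [List.mem_cons] at hx
        rcases hx with h | h | h
        · exact Or.inl h
        · exact Or.inr h
        · exact ih _ x h
      · simp only [List.mem_cons] at hx
        rcases hx with h | h | h
        · exact Or.inr h
        · exact Or.inl h
        · exact ih _ x h
    · simp only [wd] at hx
      norm_num at hx
      rcases hx with h | h
      · exact Or.inr h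
      · exact ih _ x h

lemma sk_wd {s : List ℕ} (hs : Sk s) : ∀ χ, sk (wd s χ) = s := by
  induction hs with
  | nil => intro χ; simp [wd, sk]
  | two => intro χ; simp [wd, sk]
  | three => intro χ; simp [wd, sk]
  | cons a s ha hs ih =>
    intro χ
    rcases ha with rfl | rfl | rfl
    · simp [wd, sk, ih]
    · by_cases h : χ 0 = true
      · simp [wd, sk, ih, h]
      · simp [wd, sk, ih, h]
    · simp [wd, sk, ih]

lemma wd_inj {s : List ℕ} (hs : Sk s) : ∀ χ χ' : ℕ → Bool, wd s χ = wd s χ' →
    ∀ i < s.count 5, χ i = χ' i := by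
  induction hs with
  | nil => intro χ χ' _ i hi; simp at hi
  | two => intro χ χ' _ i hi; simp at hi
  | three => intro χ χ' _ i hi; simp at hi
  | cons a s ha hs ih =>
    intro χ χ' h i hi
    rcases ha with rfl | rfl | rfl
    · simp [wd] at h
      exact ih χ χ' h i (by simpa using hi)
    · rw [List.count_cons_self] at hi
      have key : χ 0 = χ' 0 ∧ wd s (fun i => χ (i + 1)) = wd s (fun i => χ' (i + 1)) := by
        by_cases h1 : χ 0 = true <;> by_cases h2 : χ' 0 = true
        · simp [wd, h1, h2] at h
          exact ⟨by rw [h1, h2], h⟩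
        · simp [wd, h1, h2] at h
        · simp [wd, h1, h2] at h
        · simp [wd, h1, h2] at h
          refine ⟨by simp only [Bool.not_eq_true] at h1 h2; rw [h1, h2], h⟩
      rcases Nat.eq_zero_or_pos i with rfl | hi0
      · exact key.1
      · obtain ⟨j, rfl⟩ : ∃ j, i = j + 1 := ⟨i - 1, by omega⟩
        exact ih _ _ key.2 j (by omega)
    · simp [wd] at h
      exact ih χ χ' h i (by simpa using hi)

lemma wd_congr {s : List ℕ} (hs : Sk s) : ∀ χ χ' : ℕ → Bool, (∀ i < s.count 5, χ i = χ' i) →
    wd s χ = wd s χ' := by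
  induction hs with
  | nil => intro χ χ' _; simp [wd]
  | two => intro χ χ' _; simp [wd]
  | three => intro χ χ' _; simp [wd]
  | cons a s ha hs ih =>
    intro χ χ' h
    rcases ha with rfl | rfl | rfl
    · have := ih χ χ' fun i hi => h i (by simpa using hi)
      simp [wd, this]
    · rw [List.count_cons_self] at h
      have h0 := h 0 (by omega)
      have := ih (fun i => χ (i + 1)) (fun i => χ' (i + 1)) fun i hi => h (i + 1) (by omega)
      simp [wd, this, h0]
    · have := ih χ χ' fun i hi => h i (by simpa using hi)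
      simp [wd, this]

/-- a function which increases when a neighbouring pair `3, 2` is replaced by `2, 3` -/
def Inc (F : List ℕ → ℝ) : Prop :=
  ∀ p q : List ℕ, L23 p → L23 q → F (p ++ 3 :: 2 :: q) < F (p ++ 2 :: 3 :: q)

lemma L23_app {p q : List ℕ} (hp : L23 p) (hq : L23 q) : L23 (p ++ q) := by
  intro x hx
  rcases List.mem_append.1 hx with h | h
  · exact hp x h
  · exact hq x h

lemma wd_mono {F : List ℕ → ℝ} (hF : Inc F) {s : List ℕ} (hs : Sk s) : ∀ (p : List ℕ) (_ : L23 p)
    (χ χ' : ℕ → Bool) (_ : ∀ i < s.count 5, χ i = true → χ' i = true),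
    F (p ++ wd s χ) ≤ F (p ++ wd s χ') ∧
      ((∃ i < s.count 5, χ i = false ∧ χ' i = true) → F (p ++ wd s χ) < F (p ++ wd s χ')) := by
  induction hs with
  | nil =>
    intro p _ χ χ' _
    refine ⟨by simp [wd], ?_⟩
    rintro ⟨i, hi, -⟩
    simp at hi
  | two =>
    intro p _ χ χ' _
    refine ⟨by simp [wd], ?_⟩
    rintro ⟨i, hi, -⟩
    simp at hi
  | three =>
    intro p _ χ χ' _
    refine ⟨by simp [wd], ?_⟩
    rintro ⟨i, hi, -⟩
    simp at hi
  | cons a s ha hs ih =>
    intro p hp χ χ' h
    have h22 : L23 [2, 2] := by intro x hx; simp at hx; omega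
    have h33 : L23 [3, 3] := by intro x hx; simp at hx; omega
    have h23 : L23 [2, 3] := by intro x hx; simp at hx; omega
    have h32 : L23 [3, 2] := by intro x hx; simp at hx; omega
    rcases ha with rfl | rfl | rfl
    · have e : ∀ χ, p ++ wd (4 :: s) χ = (p ++ [2, 2]) ++ wd s χ := fun χ => by simp [wd]
      have hc : (4 :: s).count 5 = s.count 5 := by simp
      rw [e, e, hc]
      rw [hc] at h
      exact ih _ (L23_app hp h22) χ χ' h
    · rw [List.count_cons_self] at h ⊢
      have h' : ∀ i < s.count 5, (fun i => χ (i + 1)) i = true → (fun i => χ' (i + 1)) i = true :=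
        fun i hi => h (i + 1) (by omega)
      have hshift : (∃ i < s.count 5 + 1, χ i = false ∧ χ' i = true) →
          (χ 0 = false ∧ χ' 0 = true) ∨
            ∃ i < s.count 5, (fun i => χ (i + 1)) i = false ∧ (fun i => χ' (i + 1)) i = true := by
        rintro ⟨i, hi, h1⟩
        rcases Nat.eq_zero_or_pos i with rfl | hi0
        · exact Or.inl h1
        · obtain ⟨j, rfl⟩ : ∃ j, i = j + 1 := ⟨i - 1, by omega⟩
          exact Or.inr ⟨j, by omega, h1⟩
      by_cases h1 : χ 0 = true
      · have h2 : χ' 0 = true := h 0 (by omega) h1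
        have e1 : p ++ wd (5 :: s) χ = (p ++ [2, 3]) ++ wd s (fun i => χ (i + 1)) := by simp [wd, h1]
        have e2 : p ++ wd (5 :: s) χ' = (p ++ [2, 3]) ++ wd s (fun i => χ' (i + 1)) := by simp [wd, h2]
        rw [e1, e2]
        have h3 := ih _ (L23_app hp h23) _ _ h'
        refine ⟨h3.1, fun h4 => ?_⟩
        rcases hshift h4 with h5 | h5
        · rw [h1] at h5; exact absurd h5.1 (by simp)
        · exact h3.2 h5
      · have e1 : p ++ wd (5 :: s) χ = (p ++ [3, 2]) ++ wd s (fun i => χ (i + 1)) := by simp [wd, h1]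
        by_cases h2 : χ' 0 = true
        · have e2 : p ++ wd (5 :: s) χ' = p ++ 2 :: 3 :: wd s (fun i => χ' (i + 1)) := by simp [wd, h2]
          have h3 := ih _ (L23_app hp h32) _ _ h'
          have h4 := hF p (wd s (fun i => χ' (i + 1))) hp (wd_L23 hs _)
          have e3 : (p ++ [3, 2]) ++ wd s (fun i => χ' (i + 1)) =
            p ++ 3 :: 2 :: wd s (fun i => χ' (i + 1)) := by simp
          rw [e3] at h3
          rw [e1, e2]
          have h5 := lt_of_le_of_lt h3.1 h4
          exact ⟨h5.le, fun _ => h5⟩
        · have e2 : p ++ wd (5 :: s) χ' = (p ++ [3, 2]) ++ wd s (fun i => χ' (i + 1)) := by simp [wd, h2]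
          rw [e1, e2]
          have h3 := ih _ (L23_app hp h32) _ _ h'
          refine ⟨h3.1, fun h4 => ?_⟩
          rcases hshift h4 with h5 | h5
          · exact absurd h5.2 h2
          · exact h3.2 h5
    · have e : ∀ χ, p ++ wd (6 :: s) χ = (p ++ [3, 3]) ++ wd s χ := fun χ => by simp [wd]
      have hc : (6 :: s).count 5 = s.count 5 := by simp
      rw [e, e, hc]
      rw [hc] at h
      exact ih _ (L23_app hp h33) χ χ' h

/-- the orientation given by a set of indices -/
def ori {b : ℕ} (A : Finset (Fin b)) (i : ℕ) : Bool := decide (∃ h : i < b, (⟨i, h⟩ : Fin b) ∈ A)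

lemma ori_true {b : ℕ} (A : Finset (Fin b)) (i : Fin b) : ori A i = true ↔ i ∈ A := by
  simp [ori]

/-- Sperner's theorem: few words with the same pair sums have the same value -/
lemma fiber_le {F : List ℕ → ℝ} (hF : Inc F) {s : List ℕ} (hs : Sk s) (x : ℝ) :
    (Finset.univ.filter fun A : Finset (Fin (s.count 5)) => F (wd s (ori A)) = x).card ≤
      (s.count 5).choose (s.count 5 / 2) := by
  classical
  have h1 : IsAntichain (· ⊆ ·) ((Finset.univ.filter fun A : Finset (Fin (s.count 5)) =>
      F (wd s (ori A)) = x : Finset (Finset (Fin (s.count 5)))) : Set (Finset (Fin (s.count 5)))) := by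
    intro A hA B hB hne hsub
    rw [Finset.mem_coe, Finset.mem_filter] at hA hB
    have h2 : ∀ i < s.count 5, ori A i = true → ori B i = true := by
      intro i hi h
      exact (ori_true B ⟨i, hi⟩).2 (hsub ((ori_true A ⟨i, hi⟩).1 h))
    obtain ⟨i, hiB, hiA⟩ : ∃ i ∈ B, i ∉ A := by
      by_contra hcon
      push Not at hcon
      exact hne (Finset.Subset.antisymm hsub hcon)
    have h3 := (wd_mono hF hs [] (by intro x hx; simp at hx) (ori A) (ori B) h2).2
      ⟨i, i.2, by
        rw [← Bool.not_eq_true]
        exact fun h => hiA ((ori_true A i).1 h), (ori_true B i).2 hiB⟩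
    rw [List.nil_append, List.nil_append, hA.2, hB.2] at h3
    exact lt_irrefl _ h3
  have h2 := h1.sperner
  rwa [Fintype.card_fin] at h2

end Pool.Agent.L5helper5.SP
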