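import Mathlib
import Pool.Agent.L5helper5.SP.Words

/-!
# Counting words in the letters `2`, `3`
-/

set_option autoImplicit false

namespace Pool.Agent.L5helper5.SP

/-- the words in `2`, `3` of weight `k` -/
def Wd : ℕ → Finset (List ℕ)
  | 0 => {[]}
  | 1 => ∅
  | 2 => {[2]}
  | (k + 3) => (Wd (k + 1)).image (List.cons 2) ∪ (Wd k).image (List.cons 3)

lemma Wd_succ (k : ℕ) : Wd (k + 3) = (Wd (k + 1)).image (List.cons 2) ∪ (Wd k).image (List.cons 3) := by
  rw [Wd]

lemma L23_cons {a : ℕ} {w : List ℕ} : L23 (a :: w) ↔ (a = 2 ∨ a = 3) ∧ L23 w := by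
  simp [L23]

lemma sum_pos {w : List ℕ} (h : L23 w) (hw : w ≠ []) : 2 ≤ w.sum := by
  cases w with
  | nil => exact absurd rfl hw
  | cons a w =>
    rw [List.sum_cons]
    have := (L23_cons.1 h).1
    omega

lemma mem_Wd : ∀ (k : ℕ) (w : List ℕ), w ∈ Wd k ↔ L23 w ∧ w.sum = k := by
  intro k
  induction k using Nat.strong_induction_on with
  | _ k ih =>
    intro w
    match k, ih with
    | 0, _ =>
      rw [Wd, Finset.mem_singleton]
      constructor
      · rintro rfl
        exact ⟨by intro x hx; simp at hx, rfl⟩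
      · rintro ⟨h1, h2⟩
        by_contra h3
        have := sum_pos h1 h3
        omega
    | 1, _ =>
      rw [Wd]
      constructor
      · intro h; simp at h
      · rintro ⟨h1, h2⟩
        exfalso
        rcases eq_or_ne w [] with rfl | h3
        · simp at h2
        · have := sum_pos h1 h3
          omega
    | 2, _ =>
      rw [Wd, Finset.mem_singleton]
      constructor
      · rintro rfl
        exact ⟨by intro x hx; simp at hx; exact Or.inl hx, by simp⟩
      · rintro ⟨h1, h2⟩
        cases w with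
        | nil => simp at h2
        | cons a w =>
          rw [L23_cons] at h1
          rw [List.sum_cons] at h2
          rcases eq_or_ne w [] with rfl | h3
          · simp at h2; rw [h2]
          · have := sum_pos h1.2 h3
            omega
    | (k + 3), ih =>
      rw [Wd_succ, Finset.mem_union, Finset.mem_image, Finset.mem_image]
      constructor
      · rintro (⟨v, hv, rfl⟩ | ⟨v, hv, rfl⟩)
        · have := (ih (k + 1) (by omega) v).1 hv
          exact ⟨L23_cons.2 ⟨Or.inl rfl, this.1⟩, by rw [List.sum_cons, this.2]; ring⟩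
        · have := (ih k (by omega) v).1 hv
          exact ⟨L23_cons.2 ⟨Or.inr rfl, this.1⟩, by rw [List.sum_cons, this.2]; ring⟩
      · rintro ⟨h1, h2⟩
        cases w with
        | nil => simp at h2
        | cons a w =>
          rw [L23_cons] at h1
          rw [List.sum_cons] at h2
          rcases h1.1 with rfl | rfl
          · exact Or.inl ⟨w, (ih (k + 1) (by omega) w).2 ⟨h1.2, by omega⟩, rfl⟩
          · exact Or.inr ⟨w, (ih k (by omega) w).2 ⟨h1.2, by omega⟩, rfl⟩

lemma card_Wd (k : ℕ) : (Wd (k + 3)).card = (Wd (k + 1)).card + (Wd k).card := by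
  rw [Wd_succ, Finset.card_union_of_disjoint, Finset.card_image_of_injective _ (List.cons_injective),
    Finset.card_image_of_injective _ (List.cons_injective)]
  rw [Finset.disjoint_left]
  intro w h1 h2
  rw [Finset.mem_image] at h1 h2
  obtain ⟨v, -, rfl⟩ := h1
  obtain ⟨v', -, h3⟩ := h2
  have := (List.cons.inj h3).1
  omega

lemma card_Wd_ge (k : ℕ) (hk : 2 ≤ k) : (0.32 : ℝ) * 1.32 ^ k ≤ (Wd k).card := by
  induction k using Nat.strong_induction_on with
  | _ k ih =>
    match k, ih with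
    | 0, _ => omega
    | 1, _ => omega
    | 2, _ => rw [Wd, Finset.card_singleton]; norm_num
    | 3, _ => rw [card_Wd 0, Wd, Wd]; norm_num
    | 4, _ => rw [card_Wd 1, Wd, Wd]; norm_num
    | (k + 5), ih =>
      have h1 := ih (k + 3) (by omega) (by omega)
      have h2 := ih (k + 2) (by omega) (by omega)
      rw [card_Wd (k + 2)]
      push_cast
      have h3 : (0 : ℝ) < 1.32 ^ (k + 2) := by positivity
      have h4 : (1.32 : ℝ) ^ (k + 5) = 1.32 ^ (k + 2) * 1.32 ^ 3 := by rw [← pow_add]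
      have h5 : (1.32 : ℝ) ^ (k + 3) = 1.32 ^ (k + 2) * 1.32 := by rw [← pow_succ]
      rw [h4]
      rw [h5] at h1
      norm_num at h1 h2 h3 ⊢
      nlinarith

/-- the lists of pair sums of weight `k` -/
def SS (k : ℕ) : Finset (List ℕ) := (Wd k).image sk

lemma mem_SS {k : ℕ} {s : List ℕ} (h : s ∈ SS k) : Sk s ∧ s.sum = k := by
  rw [SS, Finset.mem_image] at h
  obtain ⟨w, hw, rfl⟩ := h
  have := (mem_Wd k w).1 hw
  exact ⟨sk_Sk w this.1, by rw [sk_sum, this.2]⟩

lemma mem_SS' {k : ℕ} {s : List ℕ} (h : Sk s) (h' : s.sum = k) : s ∈ SS k := by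
  rw [SS, Finset.mem_image]
  refine ⟨wd s fun _ => true, (mem_Wd k _).2 ⟨wd_L23 h _, ?_⟩, sk_wd h _⟩
  rw [← h', ← sk_sum, sk_wd h]

lemma card_SS (k : ℕ) : ((SS k).card : ℝ) ≤ 1.25 ^ k := by
  induction k using Nat.strong_induction_on with
  | _ k ih =>
    have small : ∀ s0 : List ℕ, SS k ⊆ {s0} → ((SS k).card : ℝ) ≤ 1.25 ^ k := by
      intro s0 h
      have h1 := Finset.card_le_card h
      rw [Finset.card_singleton] at h1
      have h2 : (1 : ℝ) ≤ 1.25 ^ k := one_le_pow₀ (by norm_num)
      exact le_trans (by exact_mod_cast h1) h2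
    have cases_Sk : ∀ s : List ℕ, s ∈ SS k → s = [] ∧ k = 0 ∨ s = [2] ∧ k = 2 ∨ s = [3] ∧ k = 3 ∨
        ∃ a s', s = a :: s' ∧ (a = 4 ∨ a = 5 ∨ a = 6) ∧ Sk s' ∧ a + s'.sum = k := by
      intro s hs
      obtain ⟨h1, h2⟩ := mem_SS hs
      cases h1 with
      | nil => left; exact ⟨rfl, by simpa using h2.symm⟩
      | two => right; left; exact ⟨rfl, by simpa using h2.symm⟩
      | three => right; right; left; exact ⟨rfl, by simpa using h2.symm⟩
      | cons a s' ha hs' =>
        right; right; right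
        exact ⟨a, s', rfl, ha, hs', by rw [← h2, List.sum_cons]⟩
    have sum_zero : ∀ s : List ℕ, Sk s → s.sum < 2 → s = [] := by
      intro s hs h
      cases hs with
      | nil => rfl
      | two => simp at h
      | three => simp at h
      | cons a s ha hs => rw [List.sum_cons] at h; omega
    by_cases h6 : k < 6
    · have hk : k = 0 ∨ k = 1 ∨ k = 2 ∨ k = 3 ∨ k = 4 ∨ k = 5 := by omega
      refine small (if k = 0 then [] else [k]) ?_
      intro s hs
      rw [Finset.mem_singleton]
      rcases cases_Sk s hs with ⟨rfl, h⟩ | ⟨rfl, h⟩ | ⟨rfl, h⟩ | ⟨a, s', rfl, ha, hs', h⟩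
      · rw [if_pos h]
      · rw [if_neg (by omega), h]
      · rw [if_neg (by omega), h]
      · have h2 : s' = [] := sum_zero s' hs' (by omega)
        subst h2
        rw [List.sum_nil, add_zero] at h
        rw [if_neg (by omega), h]
    · obtain ⟨m, rfl⟩ : ∃ m, k = m + 6 := ⟨k - 6, by omega⟩
      have hsub : SS (m + 6) ⊆ ((SS (m + 2)).image (List.cons 4) ∪ (SS (m + 1)).image (List.cons 5)) ∪
          (SS m).image (List.cons 6) := by
        intro s hs
        rw [Finset.mem_union, Finset.mem_union, Finset.mem_image, Finset.mem_image, Finset.mem_image]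
        rcases cases_Sk s hs with ⟨rfl, h⟩ | ⟨rfl, h⟩ | ⟨rfl, h⟩ | ⟨a, s', rfl, ha, hs', h⟩
        · omega
        · omega
        · omega
        · rcases ha with rfl | rfl | rfl
          · exact Or.inl (Or.inl ⟨s', mem_SS' hs' (by omega), rfl⟩)
          · exact Or.inl (Or.inr ⟨s', mem_SS' hs' (by omega), rfl⟩)
          · exact Or.inr ⟨s', mem_SS' hs' (by omega), rfl⟩
      have h1 := Finset.card_le_card hsub
      have h2 := (h1.trans (Finset.card_union_le _ _)).trans
        (Nat.add_le_add (Finset.card_union_le _ _) le_rfl)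
      have h3 : (SS (m + 6)).card ≤ (SS (m + 2)).card + (SS (m + 1)).card + (SS m).card :=
        h2.trans (Nat.add_le_add (Nat.add_le_add Finset.card_image_le Finset.card_image_le)
          Finset.card_image_le)
      have h4 : ((SS (m + 6)).card : ℝ) ≤ (SS (m + 2)).card + (SS (m + 1)).card + (SS m).card := by
        exact_mod_cast h3
      have i1 := ih (m + 2) (by omega)
      have i2 := ih (m + 1) (by omega)
      have i3 := ih m (by omega)
      have h5 : (0 : ℝ) < 1.25 ^ m := by positivity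
      have e1 : (1.25 : ℝ) ^ (m + 6) = 1.25 ^ m * 1.25 ^ 6 := by rw [← pow_add]
      have e2 : (1.25 : ℝ) ^ (m + 2) = 1.25 ^ m * 1.25 ^ 2 := by rw [← pow_add]
      have e3 : (1.25 : ℝ) ^ (m + 1) = 1.25 ^ m * 1.25 := by rw [← pow_succ]
      rw [e1]
      rw [e2] at i1
      rw [e3] at i2
      norm_num at h5 i1 i2 i3 ⊢
      nlinarith

/-- the central binomial coefficient -/
lemma central_sq (n : ℕ) : (Nat.centralBinom n) ^ 2 * (2 * n + 1) ≤ 16 ^ n := by
  induction n with
  | zero => simp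
  | succ n ih =>
    have h1 := Nat.succ_mul_centralBinom_succ n
    have h2 : ((n + 1) * Nat.centralBinom (n + 1)) ^ 2 * (2 * (n + 1) + 1) ≤ 16 ^ (n + 1) * (n + 1) ^ 2 := by
      rw [h1]
      calc (2 * (2 * n + 1) * Nat.centralBinom n) ^ 2 * (2 * (n + 1) + 1)
          = (Nat.centralBinom n ^ 2 * (2 * n + 1)) * (4 * (2 * n + 1) * (2 * n + 3)) := by ring
        _ ≤ 16 ^ n * (4 * (2 * n + 1) * (2 * n + 3)) := Nat.mul_le_mul_right _ ih
        _ ≤ 16 ^ n * (16 * (n + 1) ^ 2) := Nat.mul_le_mul_left _ (by nlinarith)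
        _ = 16 ^ (n + 1) * (n + 1) ^ 2 := by ring
    have h3 : (n + 1) ^ 2 * (Nat.centralBinom (n + 1) ^ 2 * (2 * (n + 1) + 1)) ≤
        (n + 1) ^ 2 * 16 ^ (n + 1) := by
      calc (n + 1) ^ 2 * (Nat.centralBinom (n + 1) ^ 2 * (2 * (n + 1) + 1))
          = ((n + 1) * Nat.centralBinom (n + 1)) ^ 2 * (2 * (n + 1) + 1) := by ring
        _ ≤ _ := h2
        _ = _ := by ring
    exact Nat.le_of_mul_le_mul_left h3 (by positivity)

lemma choose_sq (b : ℕ) : (b.choose (b / 2)) ^ 2 * (b + 1) ≤ 4 ^ b := by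
  rcases Nat.even_or_odd' b with ⟨n, rfl | rfl⟩
  · rw [Nat.mul_div_cancel_left n (by norm_num)]
    have h := central_sq n
    rw [Nat.centralBinom] at h
    calc ((2 * n).choose n) ^ 2 * (2 * n + 1) ≤ 16 ^ n := h
      _ = 4 ^ (2 * n) := by rw [pow_mul]; norm_num
  · have e : (2 * n + 1) / 2 = n := by omega
    rw [e]
    have h := central_sq (n + 1)
    have h1 : Nat.centralBinom (n + 1) = 2 * (2 * n + 1).choose n := by
      rw [Nat.centralBinom, show 2 * (n + 1) = (2 * n + 1) + 1 from by ring, Nat.choose_succ_succ]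
      have : (2 * n + 1).choose (n + 1) = (2 * n + 1).choose n := by
        rw [← Nat.choose_symm_half]
      rw [this]
      ring
    rw [h1] at h
    have h2 : 4 * (((2 * n + 1).choose n) ^ 2 * (2 * n + 1 + 1)) ≤ 4 * 4 ^ (2 * n + 1) := by
      calc 4 * (((2 * n + 1).choose n) ^ 2 * (2 * n + 1 + 1))
          ≤ (2 * (2 * n + 1).choose n) ^ 2 * (2 * (n + 1) + 1) := by
            rw [mul_pow]
            nlinarith [Nat.zero_le (((2 * n + 1).choose n) ^ 2)]
        _ ≤ 16 ^ (n + 1) := h
        _ = 4 * 4 ^ (2 * n + 1) := by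
            rw [show (16 : ℕ) = 4 ^ 2 from rfl, ← pow_mul, ← pow_succ']
            ring_nf
    exact Nat.le_of_mul_le_mul_left h2 (by norm_num)

lemma choose_le (b : ℕ) : ((b.choose (b / 2) : ℕ) : ℝ) ≤ 2 ^ b / √((b : ℝ) + 1) := by
  rw [le_div_iff₀ (by positivity)]
  apply le_of_sq_le_sq _ (by positivity)
  rw [mul_pow, Real.sq_sqrt (by positivity), ← pow_mul, mul_comm b 2, pow_mul]
  have h := choose_sq b
  have h' : (((b.choose (b / 2)) ^ 2 * (b + 1) : ℕ) : ℝ) ≤ ((4 ^ b : ℕ) : ℝ) := by exact_mod_cast h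
  push_cast at h'
  norm_num at h' ⊢
  exact h'

end Pool.Agent.L5helper5.SP
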