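import Mathlib
import Pool.Agent.H447R2.MZ.Tup

/-!
# Moving a letter `3` towards the small summation variables increases a multiple zeta value
-/

set_option autoImplicit false

namespace Pool.Agent.L5helper5.SP

open Filter Topology
open Pool.Agent.H447R2.MZ (H H_nil H_cons H_cons_zero H_cons_succ H_nonneg H_mono Adm val tendsto_H H_le_val)

/-- the difference of the truncated sums -/
noncomputable def df (p q : List ℕ) (N : ℕ) : ℝ := H (p ++ 2 :: 3 :: q) N - H (p ++ 3 :: 2 :: q) N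

lemma H_pos_of (s : List ℕ) : ∀ N, s.length ≤ N → 0 < H s N := by
  induction s with
  | nil => intro N _; rw [H_nil]; exact one_pos
  | cons a s ih =>
    intro N hN
    rw [List.length_cons] at hN
    rw [H_cons]
    refine Finset.sum_pos' (fun n _ => ?_) ⟨N - 1, Finset.mem_range.2 (by omega), ?_⟩
    · exact mul_nonneg (by positivity) (H_nonneg s n)
    · exact mul_pos (by positivity) (ih (N - 1) (by omega))

lemma df_step (a : ℕ) (p q : List ℕ) (N : ℕ) :
    df (a :: p) q N = ∑ n ∈ Finset.range N, (((n + 1 : ℕ) : ℝ) ^ a)⁻¹ * df p q n := by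
  rw [df, List.cons_append, List.cons_append, H_cons, H_cons, ← Finset.sum_sub_distrib]
  refine Finset.sum_congr rfl fun n _ => ?_
  rw [df]
  push_cast
  ring

lemma df_nil (q : List ℕ) (N : ℕ) :
    df [] q N = ∑ n ∈ Finset.range N, ∑ m ∈ Finset.range n,
      ((((n + 1 : ℕ) : ℝ) ^ 2)⁻¹ * (((m + 1 : ℕ) : ℝ) ^ 3)⁻¹ -
        (((n + 1 : ℕ) : ℝ) ^ 3)⁻¹ * (((m + 1 : ℕ) : ℝ) ^ 2)⁻¹) * H q m := by
  rw [df, List.nil_append, List.nil_append, H_cons, H_cons, ← Finset.sum_sub_distrib]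
  refine Finset.sum_congr rfl fun n _ => ?_
  rw [H_cons, H_cons, Finset.mul_sum, Finset.mul_sum, ← Finset.sum_sub_distrib]
  refine Finset.sum_congr rfl fun m _ => ?_
  push_cast
  ring

lemma swap_pos {m n : ℕ} (h : m < n) :
    (0 : ℝ) < (((n + 1 : ℕ) : ℝ) ^ 2)⁻¹ * (((m + 1 : ℕ) : ℝ) ^ 3)⁻¹ -
        (((n + 1 : ℕ) : ℝ) ^ 3)⁻¹ * (((m + 1 : ℕ) : ℝ) ^ 2)⁻¹ := by
  have hn : (0 : ℝ) < ((n + 1 : ℕ) : ℝ) := by positivity
  have hm : (0 : ℝ) < ((m + 1 : ℕ) : ℝ) := by positivity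
  have hmn : ((m + 1 : ℕ) : ℝ) < ((n + 1 : ℕ) : ℝ) := by exact_mod_cast (by omega : m + 1 < n + 1)
  rw [sub_pos, ← mul_inv, ← mul_inv]
  apply inv_strictAnti₀ (by positivity)
  have h1 : (0 : ℝ) < ((n + 1 : ℕ) : ℝ) ^ 2 * ((m + 1 : ℕ) : ℝ) ^ 2 := by positivity
  calc ((n + 1 : ℕ) : ℝ) ^ 2 * ((m + 1 : ℕ) : ℝ) ^ 3
      = (((n + 1 : ℕ) : ℝ) ^ 2 * ((m + 1 : ℕ) : ℝ) ^ 2) * ((m + 1 : ℕ) : ℝ) := by ring
    _ < (((n + 1 : ℕ) : ℝ) ^ 2 * ((m + 1 : ℕ) : ℝ) ^ 2) * ((n + 1 : ℕ) : ℝ) :=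
        mul_lt_mul_of_pos_left hmn h1
    _ = ((n + 1 : ℕ) : ℝ) ^ 3 * ((m + 1 : ℕ) : ℝ) ^ 2 := by ring

lemma df_nonneg (p q : List ℕ) : ∀ N, 0 ≤ df p q N := by
  induction p with
  | nil =>
    intro N
    rw [df_nil]
    refine Finset.sum_nonneg fun n _ => Finset.sum_nonneg fun m hm => ?_
    exact mul_nonneg (swap_pos (Finset.mem_range.1 hm)).le (H_nonneg q m)
  | cons a p ih =>
    intro N
    rw [df_step]
    exact Finset.sum_nonneg fun n _ => mul_nonneg (by positivity) (ih n)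

lemma df_mono (p q : List ℕ) : Monotone (df p q) := by
  intro N N' h
  cases p with
  | nil =>
    rw [df_nil, df_nil]
    refine Finset.sum_le_sum_of_subset_of_nonneg (Finset.range_subset_range.2 h) fun n _ _ =>
      Finset.sum_nonneg fun m hm => mul_nonneg (swap_pos (Finset.mem_range.1 hm)).le (H_nonneg q m)
  | cons a p =>
    rw [df_step, df_step]
    exact Finset.sum_le_sum_of_subset_of_nonneg (Finset.range_subset_range.2 h) fun n _ _ =>
      mul_nonneg (by positivity) (df_nonneg p q n)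

lemma df_pos (p q : List ℕ) : ∀ N, p.length + q.length + 2 ≤ N → 0 < df p q N := by
  induction p with
  | nil =>
    intro N hN
    rw [List.length_nil, zero_add] at hN
    rw [df_nil]
    refine Finset.sum_pos' (fun n _ => Finset.sum_nonneg fun m hm =>
      mul_nonneg (swap_pos (Finset.mem_range.1 hm)).le (H_nonneg q m)) ⟨N - 1, Finset.mem_range.2 (by omega), ?_⟩
    refine Finset.sum_pos' (fun m hm => mul_nonneg (swap_pos (Finset.mem_range.1 hm)).le (H_nonneg q m))
      ⟨N - 2, Finset.mem_range.2 (by omega), ?_⟩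
    exact mul_pos (swap_pos (by omega)) (H_pos_of q _ (by omega))
  | cons a p ih =>
    intro N hN
    rw [List.length_cons] at hN
    rw [df_step]
    refine Finset.sum_pos' (fun n _ => mul_nonneg (by positivity) (df_nonneg p q n))
      ⟨N - 1, Finset.mem_range.2 (by omega), ?_⟩
    exact mul_pos (by positivity) (ih (N - 1) (by omega))

/-- all letters are at least two -/
lemma adm_of {s : List ℕ} (h : ∀ a ∈ s, 2 ≤ a) : Adm s := by
  refine ⟨fun a ha => le_trans (by norm_num) (h a ha), fun a t e => h a (by rw [e]; simp)⟩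

theorem val_swap_lt {p q : List ℕ} (hp : ∀ a ∈ p, 2 ≤ a) (hq : ∀ a ∈ q, 2 ≤ a) :
    val (p ++ 3 :: 2 :: q) < val (p ++ 2 :: 3 :: q) := by
  have h1 : Adm (p ++ 3 :: 2 :: q) := adm_of (by
    intro a ha
    simp only [List.mem_append, List.mem_cons] at ha
    rcases ha with h | h | h | h
    · exact hp a h
    · omega
    · omega
    · exact hq a h)
  have h2 : Adm (p ++ 2 :: 3 :: q) := adm_of (by
    intro a ha
    simp only [List.mem_append, List.mem_cons] at ha
    rcases ha with h | h | h | h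
    · exact hp a h
    · omega
    · omega
    · exact hq a h)
  have h3 : Tendsto (df p q) atTop (𝓝 (val (p ++ 2 :: 3 :: q) - val (p ++ 3 :: 2 :: q))) :=
    (tendsto_H _ h2).sub (tendsto_H _ h1)
  have h4 := (df_mono p q).ge_of_tendsto h3 (p.length + q.length + 2)
  have h5 := df_pos p q _ le_rfl
  linarith

end Pool.Agent.L5helper5.SP
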