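import Mathlib
import Pool.Agent.L5helper5.SP.Count

/-!
# Few words have the same value, and almost all tuples of words satisfy no relation of small height
-/

set_option autoImplicit false

namespace Pool.Agent.L5helper5.SP

open Finset

/-- the words with the pair sums `s` -/
lemma fiber_card {F : List ℕ → ℝ} (hF : Inc F) {k : ℕ} {s : List ℕ} (hs : Sk s) (x : ℝ) :
    (((Wd k).filter fun w => F w = x).filter fun w => sk w = s).card ≤
      (s.count 5).choose (s.count 5 / 2) := by
  classical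
  refine le_trans ?_ (fiber_le hF hs x)
  have hsub : ((Wd k).filter fun w => F w = x).filter (fun w => sk w = s) ⊆
      (univ.filter fun A : Finset (Fin (s.count 5)) => F (wd s (ori A)) = x).image
        (fun A => wd s (ori A)) := by
    intro w hw
    rw [mem_filter, mem_filter, mem_Wd] at hw
    obtain ⟨⟨⟨h1, -⟩, h2⟩, h3⟩ := hw
    obtain ⟨χ, hχ⟩ := exists_wd w h1
    rw [h3] at hχ
    have e : wd s (ori (univ.filter fun i : Fin (s.count 5) => χ i = true)) = w := by
      rw [← hχ]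
      refine wd_congr hs _ _ fun i hi => ?_
      rw [Bool.eq_iff_iff]
      rw [ori_true _ (⟨i, hi⟩ : Fin (s.count 5)), mem_filter]
      simp
    rw [mem_image]
    refine ⟨univ.filter fun i : Fin (s.count 5) => χ i = true, ?_, e⟩
    rw [mem_filter]
    exact ⟨mem_univ _, by rw [e, h2]⟩
  exact (card_le_card hsub).trans card_image_le

lemma fiber_ge {k : ℕ} {s : List ℕ} (hs : s ∈ SS k) :
    2 ^ (s.count 5) ≤ ((Wd k).filter fun w => sk w = s).card := by
  classical
  obtain ⟨h1, h2⟩ := mem_SS hs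
  have h3 : (univ.image fun A : Finset (Fin (s.count 5)) => wd s (ori A)) ⊆
      (Wd k).filter fun w => sk w = s := by
    intro w hw
    rw [mem_image] at hw
    obtain ⟨A, -, rfl⟩ := hw
    rw [mem_filter, mem_Wd]
    exact ⟨⟨wd_L23 h1 _, by rw [← sk_sum, sk_wd h1, h2]⟩, sk_wd h1 _⟩
  have h4 : (univ.image fun A : Finset (Fin (s.count 5)) => wd s (ori A)).card = 2 ^ (s.count 5) := by
    rw [card_image_of_injective, card_univ, Fintype.card_finset, Fintype.card_fin]
    intro A B hAB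
    have h5 := wd_inj h1 _ _ hAB
    ext i
    rw [← ori_true A i, ← ori_true B i, h5 i i.2]
  rw [← h4]
  exact card_le_card h3

/-- **few words have the same value** -/
theorem few {F : List ℕ → ℝ} (hF : Inc F) (k : ℕ) (hk : 1 ≤ k) (x : ℝ) :
    (((Wd k).filter fun w => F w = x).card : ℝ) ≤ 200 * (Wd k).card / √k := by
  classical
  have hk0 : (0 : ℝ) < k := by exact_mod_cast hk
  have hsk : (0 : ℝ) < √k := Real.sqrt_pos.2 hk0
  rcases Nat.lt_or_ge k 2 with h2 | h2
  · obtain rfl : k = 1 := by omega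
    simp [Wd]
  -- the sum over the pair sums
  have h1 : ((Wd k).filter fun w => F w = x).card ≤ ∑ s ∈ SS k, (s.count 5).choose (s.count 5 / 2) := by
    rw [card_eq_sum_card_fiberwise (f := sk) (t := SS k)]
    · exact sum_le_sum fun s hs => fiber_card hF (mem_SS hs).1 x
    · intro w hw
      rw [mem_coe, mem_filter] at hw
      exact mem_coe.2 (mem_image_of_mem sk hw.1)
  have h3 : ∑ s ∈ SS k, 2 ^ (s.count 5) ≤ (Wd k).card := by
    rw [card_eq_sum_card_fiberwise (f := sk) (t := SS k) (s := Wd k)]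
    · exact sum_le_sum fun s hs => fiber_ge hs
    · intro w hw
      exact mem_coe.2 (mem_image_of_mem sk (mem_coe.1 hw))
  have h3' : ∑ s ∈ SS k, (2 : ℝ) ^ (s.count 5) ≤ (Wd k).card := by exact_mod_cast h3
  have h4 : ∀ s ∈ SS k, (((s.count 5).choose (s.count 5 / 2) : ℕ) : ℝ) ≤
      1.036 ^ k + 5 / √k * 2 ^ (s.count 5) := by
    intro s _
    rcases Nat.lt_or_ge k (20 * s.count 5) with h5 | h5
    · refine (choose_le _).trans ?_
      have h6 : 2 ^ (s.count 5) / √(((s.count 5 : ℕ) : ℝ) + 1) ≤ 5 / √k * (2 : ℝ) ^ (s.count 5) := by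
        rw [div_mul_eq_mul_div, div_le_div_iff₀ (by positivity) hsk]
        have h7 : √(k : ℝ) ≤ 5 * √(((s.count 5 : ℕ) : ℝ) + 1) := by
          rw [show (5 : ℝ) = √25 from by
            rw [show (25 : ℝ) = 5 ^ 2 from by norm_num, Real.sqrt_sq (by norm_num)], ← Real.sqrt_mul (by norm_num)]
          apply Real.sqrt_le_sqrt
          have h8 : (k : ℝ) ≤ 20 * ((s.count 5 : ℕ) : ℝ) := by exact_mod_cast h5.le
          have h9 : (0 : ℝ) ≤ ((s.count 5 : ℕ) : ℝ) := Nat.cast_nonneg _
          linarith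
        have h10 : (0 : ℝ) < 2 ^ (s.count 5) := by positivity
        nlinarith
      have h11 : (0 : ℝ) ≤ 1.036 ^ k := by positivity
      linarith
    · have h6 : (((s.count 5).choose (s.count 5 / 2) : ℕ) : ℝ) ≤ 2 ^ (s.count 5) := by
        exact_mod_cast Nat.choose_le_two_pow _ _
      have h7 : (2 : ℝ) ^ (s.count 5) ≤ 1.036 ^ k := by
        calc (2 : ℝ) ^ (s.count 5) ≤ (1.036 ^ 20) ^ (s.count 5) :=
              pow_le_pow_left₀ (by norm_num) (by norm_num) _
          _ = 1.036 ^ (20 * s.count 5) := by rw [pow_mul]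
          _ ≤ 1.036 ^ k := pow_le_pow_right₀ (by norm_num) h5
      have h8 : (0 : ℝ) ≤ 5 / √k * 2 ^ (s.count 5) := by positivity
      linarith
  have h5 : (((Wd k).filter fun w => F w = x).card : ℝ) ≤ 1.295 ^ k + 5 / √k * (Wd k).card := by
    calc (((Wd k).filter fun w => F w = x).card : ℝ)
        ≤ ((∑ s ∈ SS k, (s.count 5).choose (s.count 5 / 2) : ℕ) : ℝ) := by exact_mod_cast h1
      _ = ∑ s ∈ SS k, (((s.count 5).choose (s.count 5 / 2) : ℕ) : ℝ) := by push_cast; rfl
      _ ≤ ∑ s ∈ SS k, (1.036 ^ k + 5 / √k * 2 ^ (s.count 5)) := sum_le_sum h4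
      _ = (SS k).card * 1.036 ^ k + 5 / √k * ∑ s ∈ SS k, (2 : ℝ) ^ (s.count 5) := by
          rw [sum_add_distrib, sum_const, nsmul_eq_mul, mul_sum]
      _ ≤ 1.25 ^ k * 1.036 ^ k + 5 / √k * (Wd k).card := by
          have := card_SS k
          gcongr
      _ = 1.295 ^ k + 5 / √k * (Wd k).card := by
          rw [← mul_pow]
          norm_num
  -- the first term is small
  have h6 := card_Wd_ge k h2
  have h7 : (1 : ℝ) + k * 0.019 ≤ (1.019) ^ k := by
    have := one_add_mul_le_pow (a := (0.019 : ℝ)) (by norm_num) k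
    norm_num at this ⊢
    exact this
  have h8 : √(k : ℝ) ≤ k := by
    rw [Real.sqrt_le_left (by positivity)]
    have : (1 : ℝ) ≤ k := by exact_mod_cast hk
    nlinarith
  have h9 : √(k : ℝ) * 1.295 ^ k ≤ 180 * (Wd k).card := by
    have h10 : √(k : ℝ) * 0.019 ≤ 1.019 ^ k := by nlinarith
    have h11 : (0 : ℝ) < 1.295 ^ k := by positivity
    have h12 : (1.019 : ℝ) ^ k * 1.295 ^ k ≤ 1.32 ^ k := by
      rw [← mul_pow]
      exact pow_le_pow_left₀ (by norm_num) (by norm_num) k
    nlinarith [mul_le_mul_of_nonneg_right h10 h11.le]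
  rw [le_div_iff₀ hsk]
  have h10 := mul_le_mul_of_nonneg_right h5 hsk.le
  have h11 : (1.295 ^ k + 5 / √(k : ℝ) * (Wd k).card) * √(k : ℝ) =
      √(k : ℝ) * 1.295 ^ k + 5 * (Wd k).card := by
    field_simp
  rw [h11] at h10
  have h12 : (0 : ℝ) ≤ (Wd k).card := Nat.cast_nonneg _
  linarith

end Pool.Agent.L5helper5.SP
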