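import Mathlib
import Pool.Agent.L5helper5.SP.Main

/-!
# Tuples of words without relations of small height
-/

set_option autoImplicit false

namespace Pool.Agent.L5helper5.SP

open Finset

variable {α : Type*} [DecidableEq α]

lemma one_rel {r : ℕ} (W : Finset α) (F : α → ℝ) (m : ℝ)
    (hm : ∀ x : ℝ, ((W.filter fun w => F w = x).card : ℝ) ≤ m) (c : Fin r → ℤ) (hc : c ≠ 0) (y : ℝ) :
    (((Fintype.piFinset fun _ : Fin r => W).filter fun w => ∑ i, (c i : ℝ) * F (w i) = y).card : ℝ) *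
      W.card ≤ m * (W.card : ℝ) ^ r := by
  classical
  obtain ⟨i, hi⟩ : ∃ i, c i ≠ 0 := by
    by_contra h
    push Not at h
    exact hc (funext h)
  have hir : (c i : ℝ) ≠ 0 := by exact_mod_cast hi
  set B := (Fintype.piFinset fun _ : Fin r => W).filter fun w => ∑ i, (c i : ℝ) * F (w i) = y with hB
  -- the other coordinates
  let f : (Fin r → α) → ({j : Fin r // j ≠ i} → α) := fun w j => w j
  set T : Finset ({j : Fin r // j ≠ i} → α) := Fintype.piFinset fun _ => W with hT
  have hTc : T.card * W.card = W.card ^ r := by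
    rw [hT, Fintype.card_piFinset]
    rw [prod_const, card_univ]
    have h1 : Fintype.card {j : Fin r // j ≠ i} = r - 1 := by
      rw [Fintype.card_subtype_compl, Fintype.card_fin]
      simp
    have h2 : 0 < r := i.pos
    rw [h1, ← pow_succ, Nat.sub_add_cancel h2]
  have hmap : ∀ w ∈ B, f w ∈ T := by
    intro w hw
    rw [hB, mem_filter, Fintype.mem_piFinset] at hw
    rw [hT, Fintype.mem_piFinset]
    exact fun j => hw.1 j
  have hfib : ∀ u ∈ T, ((B.filter fun w => f w = u).card : ℝ) ≤ m := by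
    intro u _
    refine le_trans ?_ (hm ((y - ∑ j : {j : Fin r // j ≠ i}, (c j : ℝ) * F (u j)) / c i))
    have h1 : (B.filter fun w => f w = u).card ≤
        (W.filter fun w => F w = (y - ∑ j : {j : Fin r // j ≠ i}, (c j : ℝ) * F (u j)) / c i).card := by
      refine card_le_card_of_injOn (fun w => w i) ?_ ?_
      · intro w hw
        rw [mem_coe, mem_filter, hB, mem_filter, Fintype.mem_piFinset] at hw
        obtain ⟨⟨h2, h3⟩, h4⟩ := hw
        rw [mem_coe, mem_filter]
        refine ⟨h2 i, ?_⟩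
        rw [eq_div_iff hir, ← h3, ← h4]
        have h5 : ∑ j, (c j : ℝ) * F (w j) = (c i : ℝ) * F (w i) +
            ∑ j : {j : Fin r // j ≠ i}, (c j : ℝ) * F (w j) := by
          rw [← Finset.add_sum_erase univ (fun j => (c j : ℝ) * F (w j)) (mem_univ i)]
          congr 1
          exact Finset.sum_subtype (univ.erase i) (fun j => by simp) (fun j => (c j : ℝ) * F (w j))
        rw [h5]
        simp only [f]
        ring
      · intro w hw w' hw' h
        rw [mem_coe, mem_filter] at hw hw'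
        funext j
        by_cases hj : j = i
        · rw [hj]; exact h
        · have h6 : f w = f w' := hw.2.trans hw'.2.symm
          exact congrFun h6 ⟨j, hj⟩
    exact_mod_cast h1
  have h1 : (B.card : ℝ) ≤ m * T.card := by
    rw [card_eq_sum_card_fiberwise (f := f) (t := T) (fun w hw => mem_coe.2 (hmap w (mem_coe.1 hw)))]
    push_cast
    calc ∑ u ∈ T, ((B.filter fun w => f w = u).card : ℝ) ≤ ∑ _u ∈ T, m := sum_le_sum hfib
      _ = m * T.card := by rw [sum_const, nsmul_eq_mul, mul_comm]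
  calc (B.card : ℝ) * W.card ≤ m * T.card * W.card :=
        mul_le_mul_of_nonneg_right h1 (Nat.cast_nonneg _)
    _ = m * (W.card : ℝ) ^ r := by
        rw [mul_assoc]
        congr 1
        exact_mod_cast hTc

/-- the tuples with a relation of small height -/
lemma all_rel {r s : ℕ} (W : Finset α) (F : α → ℝ) (m : ℝ)
    (hm : ∀ x : ℝ, ((W.filter fun w => F w = x).card : ℝ) ≤ m * W.card) (hm0 : 0 ≤ m) (θ : Fin s → ℝ) (H : ℕ)
    (P : (Fin r → α) → Prop) [DecidablePred P]
    (hP : ∀ w, P w → ∃ (c : Fin r → ℤ) (e : Fin s → ℤ), c ≠ 0 ∧ (∀ i, |c i| ≤ H) ∧ (∀ j, |e j| ≤ H) ∧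
      ∑ i, (c i : ℝ) * F (w i) = ∑ j, (e j : ℝ) * θ j) :
    (((Fintype.piFinset fun _ : Fin r => W).filter P).card : ℝ) ≤
      m * (2 * H + 1) ^ (r + s) * (W.card : ℝ) ^ r := by
  classical
  rcases Nat.eq_zero_or_pos r with rfl | hr
  · have h1 : ((Fintype.piFinset fun _ : Fin 0 => W).filter P) = ∅ := by
      rw [filter_eq_empty_iff]
      intro w _ hw
      obtain ⟨c, -, hc, -⟩ := hP w hw
      exact hc (Subsingleton.elim _ _)
    rw [h1, card_empty, Nat.cast_zero]
    positivity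
  rcases Finset.eq_empty_or_nonempty W with rfl | hW
  · have h1 : ((Fintype.piFinset fun _ : Fin r => (∅ : Finset α)).filter P) = ∅ := by
      rw [filter_eq_empty_iff]
      intro w hw
      rw [Fintype.mem_piFinset] at hw
      exact absurd (hw ⟨0, hr⟩) (notMem_empty _)
    rw [h1, card_empty, Nat.cast_zero]
    positivity
  have hWc : (0 : ℝ) < W.card := by exact_mod_cast hW.card_pos
  set Bc : Finset (Fin r → ℤ) := (Fintype.piFinset fun _ => Icc (-(H : ℤ)) H).filter fun c => c ≠ 0 with hBc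
  set Be : Finset (Fin s → ℤ) := Fintype.piFinset fun _ => Icc (-(H : ℤ)) H with hBe
  have hcard : (Icc (-(H : ℤ)) H).card = 2 * H + 1 := by
    rw [Int.card_Icc]
    omega
  have hBcc : Bc.card ≤ (2 * H + 1) ^ r := by
    refine (card_filter_le _ _).trans (le_of_eq ?_)
    rw [Fintype.card_piFinset, prod_const, card_univ, Fintype.card_fin, hcard]
  have hBec : Be.card = (2 * H + 1) ^ s := by
    rw [hBe, Fintype.card_piFinset, prod_const, card_univ, Fintype.card_fin, hcard]
  have hsub : (Fintype.piFinset fun _ : Fin r => W).filter P ⊆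
      (Bc ×ˢ Be).biUnion fun q => (Fintype.piFinset fun _ : Fin r => W).filter
        fun w => ∑ i, (q.1 i : ℝ) * F (w i) = ∑ j, (q.2 j : ℝ) * θ j := by
    intro w hw
    rw [mem_filter] at hw
    obtain ⟨c, e, h1, h2, h3, h4⟩ := hP w hw.2
    rw [mem_biUnion]
    refine ⟨(c, e), ?_, ?_⟩
    · rw [mem_product, hBc, mem_filter, hBe, Fintype.mem_piFinset, Fintype.mem_piFinset]
      exact ⟨⟨fun i => mem_Icc.2 (abs_le.1 (h2 i)), h1⟩, fun j => mem_Icc.2 (abs_le.1 (h3 j))⟩
    · rw [mem_filter]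
      exact ⟨hw.1, h4⟩
  have h1 : ∀ q ∈ Bc ×ˢ Be, (((Fintype.piFinset fun _ : Fin r => W).filter
        fun w => ∑ i, (q.1 i : ℝ) * F (w i) = ∑ j, (q.2 j : ℝ) * θ j).card : ℝ) ≤ m * (W.card : ℝ) ^ r := by
    intro q hq
    rw [mem_product, hBc, mem_filter] at hq
    have h2 := one_rel W F (m * W.card) hm q.1 hq.1.2 (∑ j, (q.2 j : ℝ) * θ j)
    have h3 : m * (W.card : ℝ) * (W.card : ℝ) ^ r = (m * (W.card : ℝ) ^ r) * W.card := by ring
    rw [h3] at h2
    exact le_of_mul_le_mul_right h2 hWc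
  calc (((Fintype.piFinset fun _ : Fin r => W).filter P).card : ℝ)
      ≤ (((Bc ×ˢ Be).biUnion fun q => (Fintype.piFinset fun _ : Fin r => W).filter
        fun w => ∑ i, (q.1 i : ℝ) * F (w i) = ∑ j, (q.2 j : ℝ) * θ j).card : ℝ) := by
        exact_mod_cast card_le_card hsub
    _ ≤ ((∑ q ∈ Bc ×ˢ Be, ((Fintype.piFinset fun _ : Fin r => W).filter
        fun w => ∑ i, (q.1 i : ℝ) * F (w i) = ∑ j, (q.2 j : ℝ) * θ j).card : ℕ) : ℝ) := by
        exact_mod_cast card_biUnion_le
    _ = ∑ q ∈ Bc ×ˢ Be, (((Fintype.piFinset fun _ : Fin r => W).filter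
        fun w => ∑ i, (q.1 i : ℝ) * F (w i) = ∑ j, (q.2 j : ℝ) * θ j).card : ℝ) := by push_cast; rfl
    _ ≤ ∑ _q ∈ Bc ×ˢ Be, m * (W.card : ℝ) ^ r := sum_le_sum h1
    _ = ((Bc.card * Be.card : ℕ) : ℝ) * (m * (W.card : ℝ) ^ r) := by
        rw [sum_const, card_product, nsmul_eq_mul]
    _ ≤ (((2 * H + 1) ^ r * (2 * H + 1) ^ s : ℕ) : ℝ) * (m * (W.card : ℝ) ^ r) := by
        refine mul_le_mul_of_nonneg_right ?_ (by positivity)
        exact_mod_cast Nat.mul_le_mul hBcc hBec.le
    _ = m * (2 * H + 1) ^ (r + s) * (W.card : ℝ) ^ r := by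
        push_cast
        ring

end Pool.Agent.L5helper5.SP
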